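import Pool.Agent.helper83.GR.Spec

/-!
# Project gr, module GCJ: `galCount` is constant on classes of chains
-/

set_option autoImplicit false

namespace Pool.Agent.GR

open Pool.Agent.helper58.DC Pool.Agent.DI

theorem GCJ_funMap_mul {G : Type} [Group G] (α β : MulAut G) (ψ : G → ℂ) :
    funMap (α * β) ψ = funMap α (funMap β ψ) := by
  funext g
  simp [funMap, mul_inv_rev]

theorem GCJ_funMap_one {G : Type} [Group G] (ψ : G → ℂ) : funMap (1 : MulAut G) ψ = ψ := by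
  funext g
  simp [funMap]

theorem GCJ_act {G E A : Type} [Group G] [Group E] [Group A] (X : Extension G E A) (g : G) :
    X.act (X.inc g) = MulAut.conj g := by
  ext h
  apply X.inc_injective
  rw [X.act_spec, MulAut.conj_apply, map_mul, map_mul, map_inv]

theorem GCJ_key (hNM : NM_stmt) (hIF : IF_stmt) (hIM : IM_stmt) (hTI : TI_stmt)
    {G E A : Type} [Group G] [Group E] [Group A] [Finite G] (X : Extension G E A)
    (M : Ideal (integralClosure ℤ ℂ)) (χ : G → ℂ) (hχ : χ ∈ Irr G) (a : A) (σ : ℂ ≃+* ℂ) (g : G)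
    (C : Finset (Subgroup G)) (ψ : G → ℂ)
    (h : ψ ∈ IrrOn (nrm C) ∧ Induces M ψ χ ∧ FixedBy X a σ C ψ) :
    funMap (MulAut.conj g) ψ ∈ IrrOn (nrm (chainMap (MulAut.conj g) C)) ∧
      Induces M (funMap (MulAut.conj g) ψ) χ ∧
      FixedBy X a σ (chainMap (MulAut.conj g) C) (funMap (MulAut.conj g) ψ) := by
  obtain ⟨h1, h2, e, h3, h4, h5⟩ := h
  obtain ⟨-, -, -, n4, -⟩ := hNM G (MulAut.conj g) C
  have nm : ∀ (α β : MulAut G) (D : Finset (Subgroup G)),
      chainMap (α * β) D = chainMap α (chainMap β D) := fun α β D => (hNM G α D).2.2.2.2.1 β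
  refine ⟨?_, ?_, ?_⟩
  · rw [n4]
    exact ((hIF G (nrm C)).2 ψ h1).2.2 _
  · have hc : funMap (MulAut.conj g) χ = χ := by
      funext x
      have := ((hIF G ⊤).2 χ ((hTI G χ).2 hχ)).2.1 g⁻¹ (Subgroup.mem_top _) x
      rw [inv_inv] at this
      have e1 : (MulAut.conj g)⁻¹ x = g⁻¹ * x * g := by
        rw [← map_inv, MulAut.conj_apply, inv_inv]
      unfold funMap
      rw [e1]
      exact this
    have := ((hIM G M ψ χ χ).2.2.2 (MulAut.conj g)).2 h2
    rwa [hc] at this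
  · refine ⟨X.inc g * e * (X.inc g)⁻¹, ?_, ?_, ?_⟩
    · have e1 : X.proj (X.inc g) = 1 := (X.exact _).2 ⟨g, rfl⟩
      rw [map_mul, map_mul, map_inv, e1, h3]
      simp
    · rw [map_mul, map_mul, map_inv, GCJ_act, ← nm, mul_assoc, inv_mul_cancel, mul_one, nm, h4]
    · have e2 : galMap σ (funMap (MulAut.conj g) ψ) = funMap (MulAut.conj g) (galMap σ ψ) := rfl
      rw [map_mul, map_mul, map_inv, GCJ_act, e2, ← GCJ_funMap_mul, mul_assoc, inv_mul_cancel,
        mul_one, GCJ_funMap_mul, h5]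

theorem GCJ (hNM : NM_stmt) (hIF : IF_stmt) (hIM : IM_stmt) (hTI : TI_stmt) : GCJ_stmt := by
  intro G E A _ _ _ _ X M χ hχ a σ g C
  have nm : ∀ (α β : MulAut G) (D : Finset (Subgroup G)),
      chainMap (α * β) D = chainMap α (chainMap β D) := fun α β D => (hNM G α D).2.2.2.2.1 β
  have n1 : ∀ D : Finset (Subgroup G), chainMap (1 : MulAut G) D = D := fun D =>
    (hNM G 1 D).2.2.2.2.2.1
  have k1 : chainMap (MulAut.conj g⁻¹) (chainMap (MulAut.conj g) C) = C := by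
    rw [← nm, ← map_mul, inv_mul_cancel, map_one, n1]
  unfold galCount
  refine Nat.card_congr ⟨fun ψ => ⟨funMap (MulAut.conj g⁻¹) ψ.1, ?_⟩,
    fun ψ => ⟨funMap (MulAut.conj g) ψ.1, GCJ_key hNM hIF hIM hTI X M χ hχ a σ g C ψ.1 ψ.2⟩, ?_, ?_⟩
  · have := GCJ_key hNM hIF hIM hTI X M χ hχ a σ g⁻¹ (chainMap (MulAut.conj g) C) ψ.1 ψ.2
    rwa [k1] at this
  · intro ψ
    apply Subtype.ext
    show funMap (MulAut.conj g) (funMap (MulAut.conj g⁻¹) ψ.1) = ψ.1
    rw [← GCJ_funMap_mul, ← map_mul, mul_inv_cancel, map_one, GCJ_funMap_one]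
  · intro ψ
    apply Subtype.ext
    show funMap (MulAut.conj g⁻¹) (funMap (MulAut.conj g) ψ.1) = ψ.1
    rw [← GCJ_funMap_mul, ← map_mul, inv_mul_cancel, map_one, GCJ_funMap_one]

end Pool.Agent.GR
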