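import Pool.Agent.helper83.GR.Spec

/-!
# Project gr, module TOT: the whole Dade sum
-/

set_option autoImplicit false

namespace Pool.Agent.GR

open Pool.Agent.helper58.DC Pool.Agent.DI

theorem TOT_card {α : Type} (T : Finset α) (S : Set α) (hT : ∀ ψ, ψ ∈ T ↔ ψ ∈ S) (P : α → Prop)
    [DecidablePred P] :
    Nat.card {ψ : α // ψ ∈ S ∧ P ψ} = ∑ ψ ∈ T, if P ψ then 1 else 0 := by
  rw [← Finset.card_filter]
  exact Nat.subtype_card (T.filter P) (by intro x; simp [hT])

theorem TOT_fixed {G E A : Type} [Group G] [Group E] [Group A] (X : Extension G E A) (a : A)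
    (C : Finset (Subgroup G)) (ψ : G → ℂ) :
    FixedBy X a (RingEquiv.refl ℂ) C ψ ↔ a ∈ (X.stab C ψ).map X.proj := by
  constructor
  · rintro ⟨e, h1, h2, h3⟩
    exact ⟨e, ⟨h2, h3⟩, h1⟩
  · rintro ⟨e, ⟨h2, h3⟩, h1⟩
    exact ⟨e, h1, h2, h3⟩

theorem TOT_uniq {G : Type} [Group G] (p : ℕ) (H : Subgroup G) (ψ : G → ℂ) (d d' : ℤ)
    (h : Defect p H ψ d) (h' : Defect p H ψ d') : d = d' := by
  obtain ⟨n, h1, h2⟩ := h
  obtain ⟨n', h1', h2'⟩ := h'
  have : n = n' := by
    have h3 : (n : ℂ) = n' := by rw [← h1, ← h1']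
    exact_mod_cast h3
  rw [h2, h2', this]

theorem TOT (hB2 : B2_stmt) : TOT_stmt := by
  intro G E A _ _ _ _ _ X p M χ a
  classical
  have : Finite A := Finite.of_surjective X.proj X.proj_surjective
  have : Fintype {U : Subgroup A // a ∈ U} := Fintype.ofFinite _
  have : Fintype (Quot (chainRel (G := G) p)) := Fintype.ofFinite _
  have hfin : {d : ℤ | ∃ C : Finset (Subgroup G), ∃ ψ ∈ IrrOn (nrm C), Defect p (nrm C) ψ d}.Finite := by
    have e : {d : ℤ | ∃ C : Finset (Subgroup G), ∃ ψ ∈ IrrOn (nrm C), Defect p (nrm C) ψ d} =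
        ⋃ C : Finset (Subgroup G), ⋃ ψ ∈ IrrOn (nrm C), {d | Defect p (nrm C) ψ d} := by
      ext d
      simp
    rw [e]
    refine Set.finite_iUnion fun C => ?_
    refine Set.Finite.biUnion (hB2 G (nrm C)).1 fun ψ _ => ?_
    refine Set.Subsingleton.finite fun d hd d' hd' => ?_
    exact TOT_uniq p _ ψ d d' hd hd'
  have hD : ∀ (C : Finset (Subgroup G)) (ψ : G → ℂ) (d : ℤ), ψ ∈ IrrOn (nrm C) →
      Defect p (nrm C) ψ d → d ∈ hfin.toFinset := by
    intro C ψ d h1 h2
    rw [Set.Finite.mem_toFinset]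
    exact ⟨C, ψ, h1, h2⟩
  -- the count for one chain
  have key : ∀ C : Finset (Subgroup G), (galCount X M χ a (RingEquiv.refl ℂ) C : ℤ) =
      ∑ d ∈ hfin.toFinset, ∑ U : {U : Subgroup A // a ∈ U}, (kC X p M χ d U.1 C : ℤ) := by
    intro C
    have hT : ∀ ψ, ψ ∈ (hB2 G (nrm C)).1.toFinset ↔ ψ ∈ IrrOn (nrm C) := fun ψ =>
      Set.Finite.mem_toFinset _
    have e1 : galCount X M χ a (RingEquiv.refl ℂ) C = ∑ ψ ∈ (hB2 G (nrm C)).1.toFinset,
        if (Induces M ψ χ ∧ FixedBy X a (RingEquiv.refl ℂ) C ψ) then 1 else 0 :=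
      TOT_card _ _ hT (fun ψ => Induces M ψ χ ∧ FixedBy X a (RingEquiv.refl ℂ) C ψ)
    have e2 : ∀ (d : ℤ) (U : Subgroup A), kC X p M χ d U C = ∑ ψ ∈ (hB2 G (nrm C)).1.toFinset,
        if (Defect p (nrm C) ψ d ∧ Induces M ψ χ ∧ (X.stab C ψ).map X.proj = U) then 1 else 0 :=
      fun d U => TOT_card _ _ hT
        (fun ψ => Defect p (nrm C) ψ d ∧ Induces M ψ χ ∧ (X.stab C ψ).map X.proj = U)
    have e3 : galCount X M χ a (RingEquiv.refl ℂ) C =
        ∑ d ∈ hfin.toFinset, ∑ U : {U : Subgroup A // a ∈ U}, kC X p M χ d U.1 C := by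
      rw [e1]
      simp_rw [e2]
      have e4 : ∀ d ∈ hfin.toFinset, ∑ U : {U : Subgroup A // a ∈ U},
          ∑ ψ ∈ (hB2 G (nrm C)).1.toFinset,
            (if (Defect p (nrm C) ψ d ∧ Induces M ψ χ ∧ (X.stab C ψ).map X.proj = U.1) then 1 else 0) =
          ∑ ψ ∈ (hB2 G (nrm C)).1.toFinset, ∑ U : {U : Subgroup A // a ∈ U},
            (if (Defect p (nrm C) ψ d ∧ Induces M ψ χ ∧ (X.stab C ψ).map X.proj = U.1) then 1 else 0) :=
        fun d _ => Finset.sum_comm
      rw [Finset.sum_congr rfl e4, Finset.sum_comm]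
      refine Finset.sum_congr rfl fun ψ hψ => ?_
      rw [hT] at hψ
      obtain ⟨⟨n, hn0, hn1, hn2⟩, -⟩ := (hB2 G (nrm C)).2 ψ hψ
      have hd0 : Defect p (nrm C) ψ ((padicValNat p (Nat.card (nrm C)) : ℤ) - padicValNat p n) :=
        ⟨n, hn1, rfl⟩
      rw [Finset.sum_eq_single ((padicValNat p (Nat.card (nrm C)) : ℤ) - padicValNat p n)]
      · by_cases hI : Induces M ψ χ
        · by_cases hF : FixedBy X a (RingEquiv.refl ℂ) C ψ
          · have hF' := (TOT_fixed X a C ψ).1 hF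
            rw [Finset.sum_eq_single (⟨(X.stab C ψ).map X.proj, hF'⟩ : {U : Subgroup A // a ∈ U})]
            · rw [if_pos ⟨hI, hF⟩, if_pos ⟨hd0, hI, rfl⟩]
            · intro U _ hU
              rw [if_neg]
              rintro ⟨-, -, h⟩
              exact hU (Subtype.ext h.symm)
            · intro h
              exact absurd (Finset.mem_univ _) h
          · rw [if_neg (fun h => hF h.2)]
            symm
            refine Finset.sum_eq_zero fun U _ => ?_
            rw [if_neg]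
            rintro ⟨-, -, h⟩
            refine hF ((TOT_fixed X a C ψ).2 ?_)
            rw [h]
            exact U.2
        · rw [if_neg (fun h => hI h.1)]
          symm
          refine Finset.sum_eq_zero fun U _ => ?_
          rw [if_neg (fun h => hI h.2.1)]
      · intro d _ hd
        refine Finset.sum_eq_zero fun U _ => ?_
        rw [if_neg]
        rintro ⟨h, -⟩
        exact hd (TOT_uniq p _ ψ _ _ h hd0)
      · intro h
        exact absurd (hD C ψ _ hψ hd0) h
    rw [e3]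
    push_cast
    rfl
  have hz : ∀ (d : ℤ), d ∉ hfin.toFinset → ∀ (U : Subgroup A) (C : Finset (Subgroup G)),
      kC X p M χ d U C = 0 := by
    intro d hd U C
    unfold kC
    rw [Nat.card_eq_zero]
    left
    refine ⟨fun ψ => hd (hD C ψ.1 d ψ.2.1 ψ.2.2.1)⟩
  unfold galSum dadeSum altSum
  rw [finsum_eq_sum_of_fintype]
  have e5 : ∀ d : ℤ, ∑ᶠ U : {U : Subgroup A // a ∈ U}, ∑ᶠ c : Quot (chainRel (G := G) p),
      (-1) ^ (c.out.1.card - 1) * (kC X p M χ d U.1 c.out.1 : ℤ) =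
      ∑ c : Quot (chainRel (G := G) p), (-1) ^ (c.out.1.card - 1) *
        ∑ U : {U : Subgroup A // a ∈ U}, (kC X p M χ d U.1 c.out.1 : ℤ) := by
    intro d
    rw [finsum_eq_sum_of_fintype]
    simp_rw [finsum_eq_sum_of_fintype, Finset.mul_sum]
    exact Finset.sum_comm
  rw [finsum_congr e5]
  rw [finsum_eq_sum_of_support_subset (s := hfin.toFinset)]
  · rw [Finset.sum_comm]
    refine Finset.sum_congr rfl fun c _ => ?_
    rw [key, Finset.mul_sum]
  · intro d hd
    by_contra h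
    refine hd ?_
    refine Finset.sum_eq_zero fun c _ => ?_
    rw [Finset.sum_eq_zero, mul_zero]
    intro U _
    rw [hz d h]
    rfl

end Pool.Agent.GR
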