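import Pool.Agent.helper83.GR.Spec

/-!
# Project gr, module ZER
-/

set_option autoImplicit false

namespace Pool.Agent.GR

open Pool.Agent.helper58.DC Pool.Agent.DI

theorem ZER : ZER_stmt := by
  intro p M h z hz hs
  by_contra h0
  set s : integralClosure ℤ ℂ := ⟨z, hz⟩ with hsdef
  have hs0 : s ≠ 0 := fun h1 => h0 (congrArg Subtype.val h1)
  have halg : IsAlgebraic ℤ s := (Algebra.IsIntegral.isIntegral s).isAlgebraic
  obtain ⟨c, hc0, hc⟩ := halg.exists_nonzero_dvd (mem_nonZeroDivisors_of_ne_zero hs0)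
  obtain ⟨t, ht⟩ := hc
  have hcz : (c : ℂ) = z * (t : ℂ) := by
    have := congrArg Subtype.val ht
    simpa using this
  -- a natural multiple
  obtain ⟨n, hn0, u, hn⟩ : ∃ n : ℕ, n ≠ 0 ∧ ∃ u : integralClosure ℤ ℂ, (n : ℂ) = z * (u : ℂ) := by
    have h1 : ((c.natAbs : ℕ) : ℂ) = ((c.natAbs : ℤ) : ℂ) := (Int.cast_natCast _).symm
    rcases Int.natAbs_eq c with hc | hc
    · refine ⟨c.natAbs, Int.natAbs_ne_zero.2 hc0, t, ?_⟩
      rw [h1, ← hc, hcz]
    · refine ⟨c.natAbs, Int.natAbs_ne_zero.2 hc0, -t, ?_⟩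
      have h2 : (c.natAbs : ℤ) = -c := by omega
      rw [h1, h2, Int.cast_neg, hcz]
      push_cast
      ring
  obtain ⟨v, n', hn', e⟩ := Nat.exists_eq_pow_mul_and_not_dvd hn0 p h.pr.ne_one
  obtain ⟨w, hw, ew⟩ := hs (v + 1)
  have hp := h.p_ne
  have h1 : (n' : ℂ) = (p : ℂ) * (w * (u : ℂ)) := by
    have h2 : (p : ℂ) ^ v * n' = (p : ℂ) ^ v * ((p : ℂ) * (w * (u : ℂ))) := by
      have h3 : ((p ^ v * n' : ℕ) : ℂ) = z * (u : ℂ) := by rw [← e]; exact hn
      push_cast at h3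
      rw [h3, ew]
      ring
    exact mul_left_cancel₀ (pow_ne_zero v hp) h2
  apply hn'
  rw [← InM.natCast h, h1]
  exact InM.mul_right h (InM.prime_mem h) (hw.mul h (IntAt.coe h u))

end Pool.Agent.GR
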