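import Pool.Agent.helper88.GR.Spec

set_option autoImplicit false

open Complex Metric Set Filter Topology MeasureTheory
open MPS (om)
open PPS (pre TT fd)
open XPS (Df er dens tau)
open Pool.Agent.helper16.Multibrot

noncomputable section

namespace GR

theorem DER_A0 (n : ℕ) (c : ℂ) (j : ℕ) (hn : 2 ≤ n) (h : ∀ i, 1 ≤ i → i < j → Z n c i ≠ 0) :
    A n c j ≠ 0 := by
  unfold A
  rw [Finset.prod_ne_zero_iff]
  intro i hi
  rw [Finset.mem_Ico] at hi
  refine mul_ne_zero ?_ (pow_ne_zero _ (h i hi.1 hi.2))
  exact_mod_cast (by omega : n ≠ 0)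

theorem DER : DER_stmt := by
  intro n c j hn hj
  induction j, hj using Nat.le_induction with
  | base =>
    intro _
    have h1 : (fun x : ℂ => Z n x 1) = fun x => x := by
      funext x
      simp only [Z, Function.iterate_one]
      rw [zero_pow (by omega), zero_add]
    have h2 : A n c 1 * S n c 1 = 1 := by
      simp [A, S]
    rw [h1, h2]
    exact hasDerivAt_id c
  | succ j hj ih =>
    intro h
    have ih' := ih (fun i h1 h2 => h i h1 (by omega))
    have h1 : (fun x : ℂ => Z n x (j + 1)) = fun x => (Z n x j) ^ n + x := by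
      funext x
      simp only [Z, Function.iterate_succ_apply']
    have hA : A n c (j + 1) = A n c j * ((n : ℂ) * Z n c j ^ (n - 1)) := by
      unfold A
      rw [Finset.prod_Ico_succ_top hj]
    have hS : S n c (j + 1) = S n c j + 1 / A n c (j + 1) := by
      unfold S
      rw [Finset.sum_Icc_succ_top (by omega)]
    have hA0 : A n c (j + 1) ≠ 0 := DER_A0 n c (j + 1) hn h
    have h2 : A n c (j + 1) * S n c (j + 1) =
        (n : ℂ) * Z n c j ^ (n - 1) * (A n c j * S n c j) + 1 := by
      rw [hS, mul_add, mul_one_div, div_self hA0, hA]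
      ring
    rw [h1, h2]
    exact (ih'.pow n).add (hasDerivAt_id c)

end GR
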